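import Pool.Agent.H25.VT.Spec

/-!
# Part DUAL of swarm VT (MP_2116eb_an): the endpoint `q = 1` by duality with the maximal operator
-/

set_option autoImplicit false

open MeasureTheory Filter
open scoped ENNReal NNReal Topology

namespace Pool.Agent.Helper12.VT.DUAL

open Pool.Agent.H25.VT

theorem measurable_eta {n : ℕ} (j : ℕ) (m : ℝ) : Measurable (eta (n := n) j m) := by
  unfold eta
  apply ENNReal.measurable_ofReal.comp
  apply Measurable.const_mul
  apply Measurable.pow_const
  exact (continuous_const.add (continuous_const.mul continuous_norm)).measurable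

theorem measurable_eta_sub {n : ℕ} (j : ℕ) (m : ℝ) :
    Measurable (fun p : E n × E n => eta j m (p.1 - p.2)) :=
  (measurable_eta j m).comp (measurable_fst.sub measurable_snd)

theorem eta_comm {n : ℕ} (j : ℕ) (m : ℝ) (x y : E n) : eta j m (x - y) = eta j m (y - x) := by
  unfold eta; rw [norm_sub_rev]

theorem measurable_cv {n : ℕ} (j : ℕ) (m : ℝ) (f : E n → ℝ≥0∞) (hf : Measurable f) :
    Measurable (cv j m f) := by
  unfold cv
  exact Measurable.lintegral_prod_right'
    (f := fun p : E n × E n => eta j m (p.1 - p.2) * f p.2)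
    ((measurable_eta_sub j m).mul (hf.comp measurable_snd))

/-- `cv` is self-adjoint. -/
theorem cv_adj {n : ℕ} (j : ℕ) (m : ℝ) (f h : E n → ℝ≥0∞) (hf : Measurable f)
    (hh : Measurable h) : ∫⁻ x, cv j m f x * h x = ∫⁻ y, f y * cv j m h y := by
  unfold cv
  have h1 : ∀ x, (∫⁻ y, eta j m (x - y) * f y) * h x = ∫⁻ y, eta j m (x - y) * f y * h x := by
    intro x
    rw [lintegral_mul_const]
    exact ((measurable_eta_sub j m).comp (measurable_const.prodMk measurable_id)).mul hf
  have h2 : ∀ y, f y * (∫⁻ x, eta j m (y - x) * h x) = ∫⁻ x, eta j m (x - y) * f y * h x := by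
    intro y
    rw [← lintegral_const_mul]
    · refine lintegral_congr fun x => ?_
      rw [eta_comm j m x y]; ring
    · exact ((measurable_eta_sub j m).comp (measurable_const.prodMk measurable_id)).mul hh
  simp_rw [h1, h2]
  rw [lintegral_lintegral_swap]
  apply Measurable.aemeasurable
  exact ((measurable_eta_sub j m).mul (hf.comp measurable_snd)).mul (hh.comp measurable_fst)

theorem young_le (x y : ℝ≥0∞) {p q : ℝ} (hpq : p.HolderConjugate q) :
    x * y ≤ x ^ p + y ^ q := by
  refine (ENNReal.young_inequality x y hpq).trans ?_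
  gcongr
  · apply ENNReal.div_le_of_le_mul
    calc x ^ p = x ^ p * 1 := (mul_one _).symm
      _ ≤ x ^ p * ENNReal.ofReal p := by
          gcongr
          rw [← ENNReal.ofReal_one]
          exact ENNReal.ofReal_le_ofReal hpq.lt.le
  · apply ENNReal.div_le_of_le_mul
    calc y ^ q = y ^ q * 1 := (mul_one _).symm
      _ ≤ y ^ q * ENNReal.ofReal q := by
          gcongr
          rw [← ENNReal.ofReal_one]
          exact ENNReal.ofReal_le_ofReal hpq.symm.lt.le

theorem main (hVM : S_VM) (hCONJ : S_CONJ) (hKER : S_KER) (hMEAS : S_MEAS) : S_DUAL := by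
  intro n P a b m hn hP ha hab hm
  have hne : Nonempty (E n) := ⟨0⟩
  have hPc : Continuous P := hP.1.1
  have hPm : Measurable P := hPc.measurable
  have hb : 1 < b := by
    have := hab 0; linarith [this.1, this.2]
  have hP1 : ∀ x, 1 < P x := fun x => lt_of_lt_of_le ha (hab x).1
  set P' : E n → ℝ := fun x => P x / (P x - 1) with hP'def
  have hconj : ∀ x, (P x).HolderConjugate (P' x) := by
    intro x
    rw [Real.holderConjugate_iff]
    refine ⟨hP1 x, ?_⟩
    have h1 : P x ≠ 0 := by linarith [hP1 x]
    have h2 : P x - 1 ≠ 0 := by linarith [hP1 x]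
    simp only [hP'def]
    field_simp
    ring
  have hP'lh : LogHolder P' := hCONJ n P a b hP ha hab
  have hP'b : ∀ x, b / (b - 1) ≤ P' x ∧ P' x ≤ a / (a - 1) := by
    intro x
    have h0 := hP1 x
    obtain ⟨h1, h2⟩ := hab x
    simp only [hP'def]
    constructor
    · rw [div_le_div_iff₀ (by linarith) (by linarith)]; nlinarith
    · rw [div_le_div_iff₀ (by linarith) (by linarith)]; nlinarith
  have hb' : 1 < b / (b - 1) := by
    rw [lt_div_iff₀ (by linarith)]; linarith
  have hP'1 : ∀ x, 1 < P' x := fun x => lt_of_lt_of_le hb' (hP'b x).1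
  have hP'm : Measurable P' := hP'lh.1.1.measurable
  obtain ⟨K', hK'0, hK't, hK'⟩ := hVM n P' (b / (b - 1)) (a / (a - 1)) hn hP'lh hb' hP'b
  obtain ⟨Ck, hCk, hker⟩ := hKER n m hn hm
  set C0 : ℝ≥0∞ := 3 * Ck * K' * 2 with hC0
  have hC0t : C0 ≠ ∞ := by
    rw [hC0]
    exact ENNReal.mul_ne_top (ENNReal.mul_ne_top (ENNReal.mul_ne_top (by simp) hCk) hK't) (by simp)
  set K : ℝ≥0∞ := C0 + 1 with hKdef
  have hKt : K ≠ ∞ := by rw [hKdef]; exact ENNReal.add_ne_top.2 ⟨hC0t, ENNReal.one_ne_top⟩
  have hK1 : 1 ≤ K := by rw [hKdef]; exact le_add_self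
  have hK0 : K ≠ 0 := fun h => by rw [h] at hK1; simp at hK1
  refine ⟨K, hK0, hKt, ?_⟩
  intro F B hF hB hB3 hF1
  set G : E n → ℝ≥0∞ := fun x => ∑' j, cv j m (fun y => F y * B j y) x with hG
  have hGm : Measurable G := by
    apply Measurable.tsum
    intro j
    exact measurable_cv j m _ (hF.mul (hB j))
  -- duality
  have hdual : ∀ h : E n → ℝ≥0∞, Measurable h → ∫⁻ x, h x ^ P' x ≤ 1 →
      ∫⁻ x, G x * h x ≤ C0 := by
    intro h hh hh1
    have hMh : Measurable (MM h) := hMEAS n h hh
    calc ∫⁻ x, G x * h x = ∫⁻ x, ∑' j, cv j m (fun y => F y * B j y) x * h x := by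
          refine lintegral_congr fun x => ?_
          rw [hG]; simp only [ENNReal.tsum_mul_right]
      _ = ∑' j, ∫⁻ x, cv j m (fun y => F y * B j y) x * h x := by
          rw [lintegral_tsum]
          intro j
          exact ((measurable_cv j m _ (hF.mul (hB j))).mul hh).aemeasurable
      _ = ∑' j, ∫⁻ y, (F y * B j y) * cv j m h y := by
          congr 1; ext j
          exact cv_adj j m _ h (hF.mul (hB j)) hh
      _ ≤ ∑' j, ∫⁻ y, (F y * B j y) * (Ck * MM h y) := by
          apply ENNReal.tsum_le_tsum
          intro j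
          apply lintegral_mono
          intro y
          dsimp only
          gcongr
          exact hker j h hh y
      _ = ∫⁻ y, ∑' j, (F y * B j y) * (Ck * MM h y) := by
          rw [lintegral_tsum]
          intro j
          exact ((hF.mul (hB j)).mul (hMh.const_mul _)).aemeasurable
      _ ≤ ∫⁻ y, (3 * Ck * K') * (F y * (MM h y / K')) := by
          apply lintegral_mono
          intro y
          dsimp only
          rw [ENNReal.tsum_mul_right, ENNReal.tsum_mul_left]
          calc F y * (∑' j, B j y) * (Ck * MM h y) ≤ F y * 3 * (Ck * MM h y) := by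
                gcongr; exact hB3 y
            _ = F y * 3 * (Ck * (K' * (MM h y / K'))) := by
                rw [ENNReal.mul_div_cancel hK'0 hK't]
            _ = _ := by ring
      _ = (3 * Ck * K') * ∫⁻ y, F y * (MM h y / K') := by
          rw [lintegral_const_mul]
          exact hF.mul (hMh.div_const _)
      _ ≤ (3 * Ck * K') * ∫⁻ y, (F y ^ P y + (MM h y / K') ^ P' y) := by
          gcongr with y
          exact young_le _ _ (hconj y)
      _ = (3 * Ck * K') * ((∫⁻ y, F y ^ P y) + ∫⁻ y, (MM h y / K') ^ P' y) := by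
          rw [lintegral_add_left (hF.pow hPm)]
      _ ≤ (3 * Ck * K') * (1 + 1) := by
          gcongr
          exact hK' h hh hh1
      _ = C0 := by rw [hC0]; norm_num
  -- truncation
  set GN : ℕ → E n → ℝ≥0∞ := fun N x => (Metric.ball (0 : E n) N).indicator
    (fun x => min (G x) N) x with hGN
  have hGNm : ∀ N, Measurable (GN N) := by
    intro N
    exact (hGm.min measurable_const).indicator measurableSet_ball
  have hGNle : ∀ N x, GN N x ≤ G x := by
    intro N x
    simp only [hGN]
    by_cases hx : x ∈ Metric.ball (0 : E n) N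
    · rw [Set.indicator_of_mem hx]; exact min_le_left _ _
    · rw [Set.indicator_of_notMem hx]; exact bot_le
  have hGNle2 : ∀ N x, GN N x ≤ N := by
    intro N x
    simp only [hGN]
    by_cases hx : x ∈ Metric.ball (0 : E n) N
    · rw [Set.indicator_of_mem hx]; exact min_le_right _ _
    · rw [Set.indicator_of_notMem hx]; exact bot_le
  have hfin : ∀ N, ∫⁻ x, (GN N x / K) ^ P x ≠ ∞ := by
    intro N
    apply ne_of_lt
    calc ∫⁻ x, (GN N x / K) ^ P x ≤ ∫⁻ x, (Metric.ball (0 : E n) N).indicator
          (fun _ => ((N : ℝ≥0∞) + 1) ^ b) x := by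
          apply lintegral_mono
          intro x
          dsimp only
          by_cases hx : x ∈ Metric.ball (0 : E n) N
          · rw [Set.indicator_of_mem hx]
            calc (GN N x / K) ^ P x ≤ ((N : ℝ≥0∞) + 1) ^ P x := by
                  have : GN N x / K ≤ (N : ℝ≥0∞) + 1 := by
                    apply ENNReal.div_le_of_le_mul
                    calc GN N x ≤ N := hGNle2 N x
                      _ ≤ N + 1 := le_self_add
                      _ = (N + 1) * 1 := (mul_one _).symm
                      _ ≤ (N + 1) * K := by gcongr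
                  exact ENNReal.rpow_le_rpow this (by linarith [hP1 x])
              _ ≤ ((N : ℝ≥0∞) + 1) ^ b :=
                  ENNReal.rpow_le_rpow_of_exponent_le le_add_self (hab x).2
          · rw [Set.indicator_of_notMem hx]
            have : GN N x = 0 := by simp only [hGN]; rw [Set.indicator_of_notMem hx]
            rw [this, ENNReal.zero_div, ENNReal.zero_rpow_of_pos (by linarith [hP1 x])]
      _ = ((N : ℝ≥0∞) + 1) ^ b * volume (Metric.ball (0 : E n) N) := by
          rw [lintegral_indicator measurableSet_ball, setLIntegral_const]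
      _ < ∞ := by
          apply ENNReal.mul_lt_top
          · exact ENNReal.rpow_lt_top_of_nonneg (by linarith) (by simp)
          · exact measure_ball_lt_top
  have hbd : ∀ N, ∫⁻ x, (GN N x / K) ^ P x ≤ 1 := by
    intro N
    by_contra hcon
    push Not at hcon
    set A : ℝ≥0∞ := ∫⁻ x, (GN N x / K) ^ P x with hA
    have hAt : A ≠ ∞ := hfin N
    have hA0 : A ≠ 0 := fun h => by rw [h] at hcon; simp at hcon
    set h : E n → ℝ≥0∞ := fun x => A⁻¹ * (GN N x / K) ^ (P x - 1) with hh
    have hhm : Measurable h := by
      apply Measurable.const_mul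
      exact ((hGNm N).div_const _).pow (hPm.sub measurable_const)
    have hm2 : Measurable fun x => (GN N x / K) ^ P x := ((hGNm N).div_const _).pow hPm
    have h1 : ∫⁻ x, h x ^ P' x ≤ 1 := by
      calc ∫⁻ x, h x ^ P' x ≤ ∫⁻ x, A⁻¹ * (GN N x / K) ^ P x := by
            apply lintegral_mono
            intro x
            simp only [hh]
            rw [ENNReal.mul_rpow_of_nonneg _ _ (by linarith [hP'1 x]), ← ENNReal.rpow_mul]
            have e1 : (P x - 1) * P' x = P x := by
              simp only [hP'def]
              have h2 : P x - 1 ≠ 0 := by linarith [hP1 x]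
              field_simp
            rw [e1]
            gcongr
            calc A⁻¹ ^ P' x ≤ A⁻¹ ^ (1 : ℝ) := by
                  apply ENNReal.rpow_le_rpow_of_exponent_ge _ (hP'1 x).le
                  exact ENNReal.inv_le_one.2 hcon.le
              _ = A⁻¹ := ENNReal.rpow_one _
        _ = A⁻¹ * A := by rw [lintegral_const_mul _ hm2]
        _ = 1 := ENNReal.inv_mul_cancel hA0 hAt
    have h2 := hdual h hhm h1
    have h3 : K ≤ ∫⁻ x, G x * h x := by
      calc K = K * (A⁻¹ * A) := by rw [ENNReal.inv_mul_cancel hA0 hAt, mul_one]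
        _ = ∫⁻ x, (K * A⁻¹) * (GN N x / K) ^ P x := by
            rw [lintegral_const_mul _ hm2, ← hA, mul_assoc]
        _ ≤ ∫⁻ x, G x * h x := by
            apply lintegral_mono
            intro x
            simp only [hh]
            have e2 : (GN N x / K) ^ P x = (GN N x / K) * (GN N x / K) ^ (P x - 1) := by
              have : P x = 1 + (P x - 1) := by ring
              conv_lhs => rw [this]
              rw [ENNReal.rpow_add_of_nonneg _ _ zero_le_one (by linarith [hP1 x]),
                ENNReal.rpow_one]
            rw [e2]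
            calc K * A⁻¹ * (GN N x / K * (GN N x / K) ^ (P x - 1))
                = (K * (GN N x / K)) * (A⁻¹ * (GN N x / K) ^ (P x - 1)) := by ring
              _ = GN N x * (A⁻¹ * (GN N x / K) ^ (P x - 1)) := by
                  rw [ENNReal.mul_div_cancel hK0 hKt]
              _ ≤ G x * (A⁻¹ * (GN N x / K) ^ (P x - 1)) := by
                  gcongr; exact hGNle N x
    have h4 : K ≤ C0 := h3.trans h2
    rw [hKdef] at h4
    exact absurd h4 (not_le.2 (ENNReal.lt_add_right hC0t one_ne_zero))
  -- monotone limit
  have hlim : ∀ x, Tendsto (fun N : ℕ => (GN N x / K) ^ P x) atTop (𝓝 ((G x / K) ^ P x)) := by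
    intro x
    have t1 : Tendsto (fun N : ℕ => GN N x) atTop (𝓝 (G x)) := by
      have t2 : Tendsto (fun N : ℕ => min (G x) (N : ℝ≥0∞)) atTop (𝓝 (G x)) := by
        have := (tendsto_const_nhds (x := G x) (f := (atTop : Filter ℕ))).min
          ENNReal.tendsto_nat_nhds_top
        simpa using this
      refine t2.congr' ?_
      obtain ⟨N0, hN0⟩ := exists_nat_gt ‖x‖
      filter_upwards [eventually_ge_atTop N0] with N hN
      simp only [hGN]
      rw [Set.indicator_of_mem]
      simp only [Metric.mem_ball, dist_zero_right]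
      exact hN0.trans_le (by exact_mod_cast hN)
    have t3 : Tendsto (fun N : ℕ => GN N x / K) atTop (𝓝 (G x / K)) :=
      ENNReal.Tendsto.div_const t1 (Or.inr hK0)
    exact (ENNReal.continuous_rpow_const.tendsto _).comp t3
  calc ∫⁻ x, (G x / K) ^ P x = ∫⁻ x, liminf (fun N : ℕ => (GN N x / K) ^ P x) atTop := by
        refine lintegral_congr fun x => ?_
        exact (hlim x).liminf_eq.symm
    _ ≤ liminf (fun N : ℕ => ∫⁻ x, (GN N x / K) ^ P x) atTop := by
        apply lintegral_liminf_le
        intro N
        exact ((hGNm N).div_const _).pow hPm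
    _ ≤ liminf (fun _ : ℕ => (1 : ℝ≥0∞)) atTop := by
        exact liminf_le_liminf (Eventually.of_forall hbd)
    _ = 1 := by simp

end Pool.Agent.Helper12.VT.DUAL
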