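import Pool.Agent.H25.VT.Spec

/-!
# Part RT of swarm VT (MP_2116eb_an): the `r`-trick
-/

set_option autoImplicit false

open MeasureTheory Filter
open scoped ENNReal NNReal Topology

namespace Pool.Agent.Helper12.VT.RT

open Pool.Agent.H25.VT

/-- the weight `1 + 2^i |x|` -/
noncomputable def w {n : ℕ} (i : ℕ) (x : E n) : ℝ := 1 + (2 : ℝ) ^ i * ‖x‖

theorem one_le_w {n : ℕ} (i : ℕ) (x : E n) : 1 ≤ w i x := by
  unfold w
  have : 0 ≤ (2 : ℝ) ^ i * ‖x‖ := by positivity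
  linarith

theorem w_pos {n : ℕ} (i : ℕ) (x : E n) : 0 < w i x := lt_of_lt_of_le one_pos (one_le_w i x)

theorem w_zero {n : ℕ} (i : ℕ) : w i (0 : E n) = 1 := by simp [w]

theorem w_comm {n : ℕ} (i : ℕ) (x y : E n) : w i (x - y) = w i (y - x) := by
  unfold w; rw [norm_sub_rev]

theorem w_mul {n : ℕ} (i : ℕ) (x y z : E n) : w i (x - z) ≤ w i (x - y) * w i (y - z) := by
  unfold w
  have h1 : ‖x - z‖ ≤ ‖x - y‖ + ‖y - z‖ := norm_sub_le_norm_sub_add_norm_sub x y z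
  have h2 : (0 : ℝ) < 2 ^ i := by positivity
  have h3 : 0 ≤ ‖x - y‖ := norm_nonneg _
  have h4 : 0 ≤ ‖y - z‖ := norm_nonneg _
  have h5 : (2 : ℝ) ^ i * ‖x - z‖ ≤ 2 ^ i * (‖x - y‖ + ‖y - z‖) := by gcongr
  have h6 : 0 ≤ (2 : ℝ) ^ i * ‖x - y‖ * (2 ^ i * ‖y - z‖) := by positivity
  nlinarith

/-- `ofReal (w^s)`. -/
noncomputable def W {n : ℕ} (i : ℕ) (s : ℝ) (x : E n) : ℝ≥0∞ := ENNReal.ofReal (w i x ^ s)

theorem W_ne_top {n : ℕ} (i : ℕ) (s : ℝ) (x : E n) : W i s x ≠ ∞ := ENNReal.ofReal_ne_top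

theorem W_ne_zero {n : ℕ} (i : ℕ) (s : ℝ) (x : E n) : W i s x ≠ 0 := by
  unfold W
  have : 0 < w i x ^ s := Real.rpow_pos_of_pos (w_pos i x) s
  simpa using this

theorem W_add {n : ℕ} (i : ℕ) (s t : ℝ) (x : E n) : W i (s + t) x = W i s x * W i t x := by
  unfold W
  rw [Real.rpow_add (w_pos i x), ENNReal.ofReal_mul (Real.rpow_nonneg (w_pos i x).le _)]

theorem W_rpow {n : ℕ} (i : ℕ) (s t : ℝ) (x : E n) (ht : 0 ≤ t) : W i s x ^ t = W i (s * t) x := by
  unfold W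
  rw [ENNReal.ofReal_rpow_of_nonneg (Real.rpow_nonneg (w_pos i x).le _) ht,
    ← Real.rpow_mul (w_pos i x).le]

theorem W_zero {n : ℕ} (i : ℕ) (x : E n) : W i 0 x = 1 := by simp [W]

theorem W_at_zero {n : ℕ} (i : ℕ) (s : ℝ) : W i s (0 : E n) = 1 := by simp [W, w_zero]

theorem W_neg_mul {n : ℕ} (i : ℕ) (s : ℝ) (x : E n) : W i (-s) x * W i s x = 1 := by
  rw [← W_add]; simp [W_zero]

theorem W_mono {n : ℕ} (i : ℕ) {s t : ℝ} (h : s ≤ t) (x : E n) : W i s x ≤ W i t x :=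
  ENNReal.ofReal_le_ofReal (Real.rpow_le_rpow_of_exponent_le (one_le_w i x) h)

theorem W_comm {n : ℕ} (i : ℕ) (s : ℝ) (x y : E n) : W i s (x - y) = W i s (y - x) := by
  unfold W; rw [w_comm]

/-- `w(x-z)^M ≤ w(x-y)^M w(y-z)^M`. -/
theorem W_tri {n : ℕ} (i : ℕ) {M : ℝ} (hM : 0 ≤ M) (x y z : E n) :
    W i M (x - z) ≤ W i M (x - y) * W i M (y - z) := by
  unfold W
  rw [← ENNReal.ofReal_mul (Real.rpow_nonneg (w_pos i _).le _),
    ← Real.mul_rpow (w_pos i _).le (w_pos i _).le]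
  exact ENNReal.ofReal_le_ofReal (Real.rpow_le_rpow (w_pos i _).le (w_mul i x y z) hM)

/-- `w(y-z)^(-M) ≤ w(x-z)^(-M) w(x-y)^M`. -/
theorem W_neg_tri {n : ℕ} (i : ℕ) {M : ℝ} (hM : 0 ≤ M) (x y z : E n) :
    W i (-M) (y - z) ≤ W i (-M) (x - z) * W i M (x - y) := by
  have h := W_tri i hM x y z
  calc W i (-M) (y - z) = W i (-M) (y - z) * (W i (-M) (x - z) * W i M (x - z)) := by
        rw [W_neg_mul, mul_one]
    _ ≤ W i (-M) (y - z) * (W i (-M) (x - z) * (W i M (x - y) * W i M (y - z))) := by gcongr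
    _ = (W i (-M) (y - z) * W i M (y - z)) * (W i (-M) (x - z) * W i M (x - y)) := by ring
    _ = _ := by rw [W_neg_mul, one_mul]

theorem measurable_W {n : ℕ} (i : ℕ) (s : ℝ) : Measurable (W (n := n) i s) := by
  unfold W w
  apply ENNReal.measurable_ofReal.comp
  apply Measurable.pow_const
  exact (continuous_const.add (continuous_const.mul continuous_norm)).measurable

/-- the scale factor `2^{in}` -/
noncomputable def ρ (n i : ℕ) : ℝ≥0∞ := ENNReal.ofReal ((2 : ℝ) ^ (i * n))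

theorem eta_eq {n : ℕ} (i : ℕ) (m : ℝ) (x : E n) : eta i m x = ρ n i * W i (-m) x := by
  unfold eta ρ W w
  rw [ENNReal.ofReal_mul (by positivity)]

theorem cv_eq {n : ℕ} (i : ℕ) (m : ℝ) (f : E n → ℝ≥0∞) (x : E n) :
    cv i m f x = ∫⁻ y, ρ n i * W i (-m) (x - y) * f y := by
  unfold cv; simp_rw [eta_eq]

/-- mass of the kernel -/
theorem mass {n : ℕ} (i : ℕ) (s : ℝ) (x : E n) :
    ∫⁻ y, ρ n i * W i (-s) (x - y) = ∫⁻ y : E n, ENNReal.ofReal ((1 + ‖y‖) ^ (-s)) := by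
  have h1 : ∫⁻ y, ρ n i * W i (-s) (x - y) = ∫⁻ y : E n, ρ n i * W i (-s) y :=
    lintegral_sub_left_eq_self (μ := (volume : Measure (E n))) (fun y => ρ n i * W i (-s) y) x
  rw [h1, lintegral_const_mul _ (measurable_W i (-s))]
  have h2 : (2 : ℝ) ^ i ≠ 0 := by positivity
  have h3 := Measure.map_addHaar_smul (volume : Measure (E n)) h2
  have h4 : ∫⁻ y : E n, ENNReal.ofReal ((1 + ‖y‖) ^ (-s)) ∂(Measure.map ((2 : ℝ) ^ i • ·) volume)
      = ∫⁻ y : E n, W i (-s) y := by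
    rw [lintegral_map]
    · refine lintegral_congr fun y => ?_
      unfold W w
      rw [norm_smul, Real.norm_of_nonneg (by positivity)]
    · apply ENNReal.measurable_ofReal.comp
      apply Measurable.pow_const
      exact (continuous_const.add continuous_norm).measurable
    · exact measurable_const_smul _
  rw [← h4, h3, lintegral_smul_measure, smul_eq_mul, ← mul_assoc]
  have h5 : ρ n i * ENNReal.ofReal |(((2 : ℝ) ^ i) ^ Module.finrank ℝ (E n))⁻¹| = 1 := by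
    unfold ρ
    rw [← ENNReal.ofReal_mul (by positivity), finrank_euclideanSpace_fin,
      abs_of_nonneg (by positivity), ← pow_mul, mul_inv_cancel₀ (by positivity),
      ENNReal.ofReal_one]
  rw [h5, one_mul]

/-- the maximal function of Peetre type -/
noncomputable def S {n : ℕ} (i : ℕ) (M : ℝ) (g : E n → ℂ) (x : E n) : ℝ≥0∞ :=
  ⨆ y, ‖g y‖ₑ * W i (-M) (x - y)

theorem le_S {n : ℕ} (i : ℕ) (M : ℝ) (g : E n → ℂ) (x y : E n) :
    ‖g y‖ₑ * W i (-M) (x - y) ≤ S i M g x :=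
  le_iSup (fun y => ‖g y‖ₑ * W i (-M) (x - y)) y

theorem le_S' {n : ℕ} (i : ℕ) (M : ℝ) (g : E n → ℂ) (x y : E n) :
    ‖g y‖ₑ ≤ S i M g x * W i M (x - y) := by
  calc ‖g y‖ₑ = ‖g y‖ₑ * (W i (-M) (x - y) * W i M (x - y)) := by rw [W_neg_mul, mul_one]
    _ = (‖g y‖ₑ * W i (-M) (x - y)) * W i M (x - y) := by ring
    _ ≤ S i M g x * W i M (x - y) := by gcongr; exact le_S i M g x y

/-- Step (a). -/
theorem stepA {n : ℕ} (r M : ℝ) (A : ℕ → ℝ) (hr : 0 < r) (hr1 : r ≤ 1) (hM : 0 ≤ M)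
    (i : ℕ) (K g : E n → ℂ) (hg : Continuous g)
    (hK : ∀ (M : ℕ) (x : E n), ‖K x‖ ≤ A M * ((2 : ℝ) ^ (i * n) *
      (1 + (2 : ℝ) ^ i * ‖x‖) ^ (-(M : ℝ))))
    (hrep : ∀ x, g x = ∫ z, K (x - z) * g z) (x : E n) (hS : S i M g x ≠ ∞) :
    S i M g x ^ r ≤ ENNReal.ofReal (A ⌈M⌉₊) * cv i (M * r) (fun z => ‖g z‖ₑ ^ r) x := by
  set I := cv i (M * r) (fun z => ‖g z‖ₑ ^ r) x with hI
  set a := ENNReal.ofReal (A ⌈M⌉₊) with ha
  set T := S i M g x with hT
  -- kernel bound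
  have hKb : ∀ v : E n, ‖K v‖ₑ ≤ a * (ρ n i * W i (-M) v) := by
    intro v
    have h1 := hK ⌈M⌉₊ v
    have h2 : ‖K v‖ₑ ≤ ENNReal.ofReal (A ⌈M⌉₊ * ((2 : ℝ) ^ (i * n) *
      (1 + (2 : ℝ) ^ i * ‖v‖) ^ (-((⌈M⌉₊ : ℕ) : ℝ)))) := by
      rw [← ofReal_norm]
      exact ENNReal.ofReal_le_ofReal h1
    have hq : (0 : ℝ) ≤ (2 : ℝ) ^ (i * n) * (1 + (2 : ℝ) ^ i * ‖v‖) ^ (-((⌈M⌉₊ : ℕ) : ℝ)) := by
      positivity
    rw [ENNReal.ofReal_mul' hq, ENNReal.ofReal_mul (by positivity)] at h2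
    refine h2.trans ?_
    rw [ha]
    gcongr
    · exact le_rfl
    · exact W_mono i (by linarith [Nat.le_ceil M]) v
  have hmeas : Measurable fun z => ‖g z‖ₑ := hg.measurable.enorm
  -- pointwise bound
  have key : ∀ y, ‖g y‖ₑ * W i (-M) (x - y) ≤ a * (T ^ (1 - r) * I) := by
    intro y
    have h1 : ‖g y‖ₑ ≤ ∫⁻ z, ‖K (y - z)‖ₑ * ‖g z‖ₑ := by
      calc ‖g y‖ₑ = ‖∫ z, K (y - z) * g z‖ₑ := by rw [← hrep]
        _ ≤ ∫⁻ z, ‖K (y - z) * g z‖ₑ := enorm_integral_le_lintegral_enorm _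
        _ = _ := by simp_rw [enorm_mul]
    have h2 : ∀ z, ‖K (y - z)‖ₑ * ‖g z‖ₑ ≤
        (a * T ^ (1 - r) * W i M (x - y)) * (ρ n i * W i (-(M * r)) (x - z) * ‖g z‖ₑ ^ r) := by
      intro z
      have e1 : ‖g z‖ₑ = ‖g z‖ₑ ^ (1 - r) * ‖g z‖ₑ ^ r := by
        rw [← ENNReal.rpow_add_of_nonneg _ _ (by linarith) hr.le]; simp
      have e2 : ‖g z‖ₑ ^ (1 - r) ≤ T ^ (1 - r) * W i (M * (1 - r)) (x - z) := by
        calc ‖g z‖ₑ ^ (1 - r) ≤ (T * W i M (x - z)) ^ (1 - r) :=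
              ENNReal.rpow_le_rpow (le_S' i M g x z) (by linarith)
          _ = _ := by
              rw [ENNReal.mul_rpow_of_nonneg _ _ (by linarith), W_rpow _ _ _ _ (by linarith)]
      have e3 : ‖K (y - z)‖ₑ ≤ a * (ρ n i * (W i (-M) (x - z) * W i M (x - y))) := by
        refine (hKb (y - z)).trans ?_
        gcongr
        exact W_neg_tri i hM x y z
      have e4 : W i (-(M * r)) (x - z) = W i (-M) (x - z) * W i (M * (1 - r)) (x - z) := by
        rw [← W_add]; congr 1; ring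
      calc ‖K (y - z)‖ₑ * ‖g z‖ₑ = ‖K (y - z)‖ₑ * (‖g z‖ₑ ^ (1 - r) * ‖g z‖ₑ ^ r) := by
            rw [← e1]
        _ ≤ (a * (ρ n i * (W i (-M) (x - z) * W i M (x - y)))) *
            ((T ^ (1 - r) * W i (M * (1 - r)) (x - z)) * ‖g z‖ₑ ^ r) := by gcongr
        _ = _ := by rw [e4]; ring
    calc ‖g y‖ₑ * W i (-M) (x - y)
        ≤ (∫⁻ z, ‖K (y - z)‖ₑ * ‖g z‖ₑ) * W i (-M) (x - y) := by gcongr
      _ ≤ (∫⁻ z, (a * T ^ (1 - r) * W i M (x - y)) *
            (ρ n i * W i (-(M * r)) (x - z) * ‖g z‖ₑ ^ r)) * W i (-M) (x - y) := by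
          refine mul_le_mul_left ?_ _
          exact lintegral_mono h2
      _ = ((a * T ^ (1 - r) * W i M (x - y)) * I) * W i (-M) (x - y) := by
          rw [lintegral_const_mul, hI, cv_eq]
          exact ((((measurable_W i (-(M * r))).comp
            (measurable_const.sub measurable_id)).const_mul _).mul (hmeas.pow_const r))
      _ = (W i (-M) (x - y) * W i M (x - y)) * (a * (T ^ (1 - r) * I)) := by ring
      _ = _ := by rw [W_neg_mul, one_mul]
  have hsup : T ≤ a * (T ^ (1 - r) * I) := by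
    rw [hT]; exact iSup_le key
  by_cases hT0 : T = 0
  · rw [hT0, ENNReal.zero_rpow_of_pos hr]; exact bot_le
  · have hq0 : T ^ (1 - r) ≠ 0 := by
      rw [Ne, ENNReal.rpow_eq_zero_iff]; push Not
      exact ⟨fun h => absurd h hT0, fun h => absurd h hS⟩
    have hqt : T ^ (1 - r) ≠ ∞ := ENNReal.rpow_ne_top_of_nonneg (by linarith) hS
    have e : T = T ^ (1 - r) * T ^ r := by
      rw [← ENNReal.rpow_add_of_nonneg _ _ (by linarith) hr.le]; simp
    have h3 : T ^ (1 - r) * T ^ r ≤ T ^ (1 - r) * (a * I) := by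
      rw [← e]; calc T ≤ a * (T ^ (1 - r) * I) := hsup
        _ = _ := by ring
    exact (ENNReal.mul_le_mul_iff_right hq0 hqt).1 h3

theorem main : S_RT := by
  intro n r m A hn hr hr1 hm
  set cn : ℝ≥0∞ := ∫⁻ y : E n, ENNReal.ofReal ((1 + ‖y‖) ^ (-((n : ℝ) + 1))) with hcn
  have hcnt : cn ≠ ∞ := by
    apply ne_of_lt
    apply finite_integral_one_add_norm
    rw [finrank_euclideanSpace_fin]; linarith
  set C : ℝ≥0∞ := cn ^ r * ENNReal.ofReal (A ⌈m / r⌉₊) + 1 with hC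
  refine ⟨C, ?_, ?_⟩
  · rw [hC]
    exact ENNReal.add_ne_top.2 ⟨ENNReal.mul_ne_top
      (ENNReal.rpow_ne_top_of_nonneg hr.le hcnt) ENNReal.ofReal_ne_top, ENNReal.one_ne_top⟩
  intro i K g hKc hg hK hgrow hrep x
  by_cases hIt : cv i m (fun z => ‖g z‖ₑ ^ r) x = ∞
  · rw [hIt, ENNReal.mul_top (by rw [hC]; simp)]; exact le_top
  have hmr : 0 ≤ m / r := div_nonneg hm hr.le
  have hmeas : Measurable fun z => ‖g z‖ₑ := hg.measurable.enorm
  -- step (b)
  obtain ⟨C', N, hN⟩ := hgrow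
  have hC'0 : 0 ≤ C' := by
    have := hN 0
    simp only [norm_zero, add_zero, one_pow, mul_one] at this
    exact (norm_nonneg _).trans this
  set M0 : ℝ := max (N : ℝ) (m / r) with hM0
  have hM00 : 0 ≤ M0 := hmr.trans (le_max_right _ _)
  have hS0 : ∀ y, S i M0 g y ≠ ∞ := by
    intro y
    apply ne_of_lt
    refine lt_of_le_of_lt (b := ENNReal.ofReal (C' * (1 + ‖y‖) ^ N)) ?_ ENNReal.ofReal_lt_top
    unfold S
    apply iSup_le
    intro z
    unfold W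
    rw [← ofReal_norm, ← ENNReal.ofReal_mul (norm_nonneg _)]
    apply ENNReal.ofReal_le_ofReal
    have h1 : 1 + ‖z‖ ≤ (1 + ‖y‖) * w i (y - z) := by
      unfold w
      have h2 : ‖z‖ ≤ ‖y‖ + ‖y - z‖ := by
        calc ‖z‖ = ‖y - (y - z)‖ := by rw [sub_sub_cancel]
          _ ≤ ‖y‖ + ‖y - z‖ := norm_sub_le _ _
      have h3 : (1 : ℝ) ≤ 2 ^ i := one_le_pow₀ (by norm_num)
      have h4 : 0 ≤ ‖y‖ := norm_nonneg _
      have h5 : 0 ≤ ‖y - z‖ := norm_nonneg _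
      have h6 : ‖y - z‖ ≤ 2 ^ i * ‖y - z‖ := by nlinarith
      nlinarith [mul_nonneg h4 (h5.trans h6)]
    calc ‖g z‖ * w i (y - z) ^ (-M0)
        ≤ (C' * (1 + ‖z‖) ^ N) * w i (y - z) ^ (-(N : ℝ)) := by
          gcongr
          · exact Real.rpow_nonneg (w_pos i _).le _
          · exact hN z
          · exact one_le_w i _
          · exact le_max_left _ _
      _ ≤ (C' * ((1 + ‖y‖) * w i (y - z)) ^ N) * w i (y - z) ^ (-(N : ℝ)) := by
          have := (w_pos i (y - z)).le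
          gcongr
      _ = C' * (1 + ‖y‖) ^ N := by
          rw [mul_pow, Real.rpow_neg (w_pos i _).le, Real.rpow_natCast]
          have : w i (y - z) ^ N ≠ 0 := (pow_pos (w_pos i _) N).ne'
          field_simp
  have hSfin : S i (m / r) g x ≠ ∞ := by
    have h1 : ∀ y, ‖g y‖ₑ * W i (-(m / r)) (x - y) ≤
        (ENNReal.ofReal (A ⌈M0⌉₊) * cv i m (fun z => ‖g z‖ₑ ^ r) x) ^ (1 / r) := by
      intro y
      have h2 : ‖g y‖ₑ ^ r ≤ ENNReal.ofReal (A ⌈M0⌉₊) * cv i (M0 * r) (fun z => ‖g z‖ₑ ^ r) y := by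
        calc ‖g y‖ₑ ^ r ≤ S i M0 g y ^ r := by
              apply ENNReal.rpow_le_rpow _ hr.le
              have := le_S i M0 g y y
              rwa [sub_self, W_at_zero, mul_one] at this
          _ ≤ _ := stepA r M0 A hr hr1 hM00 i K g hg hK hrep y (hS0 y)
      have h3 : cv i (M0 * r) (fun z => ‖g z‖ₑ ^ r) y ≤
          W i m (x - y) * cv i m (fun z => ‖g z‖ₑ ^ r) x := by
        rw [cv_eq, cv_eq, ← lintegral_const_mul]
        · apply lintegral_mono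
          intro z
          dsimp only
          calc ρ n i * W i (-(M0 * r)) (y - z) * ‖g z‖ₑ ^ r
              ≤ ρ n i * (W i (-m) (x - z) * W i m (x - y)) * ‖g z‖ₑ ^ r := by
                gcongr
                refine (W_mono i ?_ (y - z)).trans (W_neg_tri i hm x y z)
                have : m ≤ M0 * r := by
                  calc m = m / r * r := by field_simp
                    _ ≤ M0 * r := by gcongr; exact le_max_right _ _
                linarith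
            _ = _ := by ring
        · exact ((((measurable_W i (-m)).comp
            (measurable_const.sub measurable_id)).const_mul _).mul (hmeas.pow_const r))
      have h4 : (‖g y‖ₑ * W i (-(m / r)) (x - y)) ^ r ≤
          ENNReal.ofReal (A ⌈M0⌉₊) * cv i m (fun z => ‖g z‖ₑ ^ r) x := by
        rw [ENNReal.mul_rpow_of_nonneg _ _ hr.le, W_rpow _ _ _ _ hr.le]
        have e : -(m / r) * r = -m := by field_simp
        rw [e]
        calc ‖g y‖ₑ ^ r * W i (-m) (x - y)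
            ≤ (ENNReal.ofReal (A ⌈M0⌉₊) * (W i m (x - y) * cv i m (fun z => ‖g z‖ₑ ^ r) x)) *
              W i (-m) (x - y) := by
                gcongr
                exact h2.trans (by gcongr)
          _ = (W i (-m) (x - y) * W i m (x - y)) *
              (ENNReal.ofReal (A ⌈M0⌉₊) * cv i m (fun z => ‖g z‖ₑ ^ r) x) := by ring
          _ = _ := by rw [W_neg_mul, one_mul]
      calc ‖g y‖ₑ * W i (-(m / r)) (x - y)
          = ((‖g y‖ₑ * W i (-(m / r)) (x - y)) ^ r) ^ (1 / r) := by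
            rw [← ENNReal.rpow_mul, mul_one_div_cancel hr.ne', ENNReal.rpow_one]
        _ ≤ _ := ENNReal.rpow_le_rpow h4 (by positivity)
    apply ne_of_lt
    refine lt_of_le_of_lt (iSup_le h1) ?_
    exact ENNReal.rpow_lt_top_of_nonneg (by positivity)
      (ENNReal.mul_ne_top ENNReal.ofReal_ne_top hIt)
  -- step (c)
  have h5 : S i (m / r) g x ^ r ≤
      ENNReal.ofReal (A ⌈m / r⌉₊) * cv i m (fun z => ‖g z‖ₑ ^ r) x := by
    have := stepA r (m / r) A hr hr1 hmr i K g hg hK hrep x hSfin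
    have e : m / r * r = m := by field_simp
    rwa [e] at this
  have h6 : cv i (m / r + n + 1) (fun z => ‖g z‖ₑ) x ≤ S i (m / r) g x * cn := by
    rw [cv_eq, hcn, ← mass i ((n : ℝ) + 1) x, ← lintegral_const_mul]
    · apply lintegral_mono
      intro z
      dsimp only
      have e : W i (-(m / r + n + 1)) (x - z) = W i (-(m / r)) (x - z) * W i (-((n : ℝ) + 1)) (x - z) := by
        rw [← W_add]; congr 1; ring
      calc ρ n i * W i (-(m / r + n + 1)) (x - z) * ‖g z‖ₑ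
          = (‖g z‖ₑ * W i (-(m / r)) (x - z)) * (ρ n i * W i (-((n : ℝ) + 1)) (x - z)) := by
            rw [e]; ring
        _ ≤ _ := by gcongr; exact le_S i (m / r) g x z
    · exact (((measurable_W i (-((n : ℝ) + 1))).comp
            (measurable_const.sub measurable_id)).const_mul _)
  calc (cv i (m / r + n + 1) (fun z => ‖g z‖ₑ) x) ^ r ≤ (S i (m / r) g x * cn) ^ r :=
        ENNReal.rpow_le_rpow h6 hr.le
    _ = S i (m / r) g x ^ r * cn ^ r := ENNReal.mul_rpow_of_nonneg _ _ hr.le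
    _ ≤ (ENNReal.ofReal (A ⌈m / r⌉₊) * cv i m (fun z => ‖g z‖ₑ ^ r) x) * cn ^ r := by gcongr
    _ = (cn ^ r * ENNReal.ofReal (A ⌈m / r⌉₊)) * cv i m (fun z => ‖g z‖ₑ ^ r) x := by ring
    _ ≤ C * cv i m (fun z => ‖g z‖ₑ ^ r) x := by
        gcongr
        rw [hC]; exact le_self_add

end Pool.Agent.Helper12.VT.RT
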